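import Mathlib

/-!
KZ (MP_0aa406_nt), helper21: the theorem of Vosper in `chain form`, in every abelian group with the
Cauchy-Davenport inequality below `L`, and the parity trick.
-/

set_option autoImplicit false

namespace Pool.Agent.Helper21.KZ

open Finset
open scoped Pointwise

variable {G : Type*} [AddCommGroup G] [DecidableEq G]

/-- The Cauchy-Davenport inequality below `L`. -/
def CD (G : Type*) [AddCommGroup G] [DecidableEq G] (L : ℕ) : Prop :=
  ∀ A B : Finset G, A.Nonempty → B.Nonempty → min L (A.card + B.card - 1) ≤ (A + B).card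

theorem CD.le {L : ℕ} (h : CD G L) {A B : Finset G} (hA : A.Nonempty) (hB : B.Nonempty)
    (hlt : (A + B).card < L) : A.card + B.card ≤ (A + B).card + 1 := by
  have := h A B hA hB
  have hA' := hA.card_pos
  omega

theorem card_pair_add {y : G} (hy : y ≠ 0) : ({0, y} : Finset G).card = 2 :=
  Finset.card_pair hy.symm

/-- A nonempty set which is invariant under a translation has at least `L` elements. -/
theorem CD.invariant {L : ℕ} (h : CD G L) {S : Finset G} (hS : S.Nonempty) {y : G} (hy : y ≠ 0)
    (hinv : ∀ k ∈ S, k + y ∈ S) : L ≤ S.card := by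
  by_contra hlt
  rw [not_le] at hlt
  have h1 : S + {0, y} ⊆ S := by
    intro k hk
    obtain ⟨a, ha, b, hb, rfl⟩ := Finset.mem_add.1 hk
    rcases Finset.mem_insert.1 hb with rfl | hb
    · simpa using ha
    · rw [Finset.mem_singleton.1 hb]
      exact hinv a ha
  have h2 := Finset.card_le_card h1
  have h3 := h.le hS (B := {0, y}) ⟨0, by simp⟩ (lt_of_le_of_lt h2 hlt)
  rw [card_pair_add hy] at h3
  omega

/-- First half of Vosper's theorem in chain form. -/
theorem chain_sum {L : ℕ} (h : CD G L) : ∀ (k : ℕ) (A B : Finset G), B.card = k → 2 ≤ A.card →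
    2 ≤ B.card → (A + B).card + 1 ≤ A.card + B.card → (A + B).card < L →
    ∃ y : G, y ≠ 0 ∧ (A + B + {0, y}).card ≤ (A + B).card + 1 := by
  intro k
  induction k using Nat.strong_induction_on with
  | _ k ih =>
    intro A B hk hA hB hAB hlt
    have hAne : A.Nonempty := Finset.card_pos.1 (by omega)
    have hBne : B.Nonempty := Finset.card_pos.1 (by omega)
    have hAlt : A.card < L := lt_of_le_of_lt (Finset.card_le_card_add_right hBne) hlt
    rcases Nat.lt_or_ge 2 B.card with hB3 | hB2
    · obtain ⟨b₀, hb₀⟩ := hBne
      set X := A.filter (fun a => ∃ b ∈ B, a + (b - b₀) ∉ A) with hX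
      by_cases hex : ∃ e ∈ X, 2 ≤ (B.filter (fun b => b + (e - b₀) ∈ A)).card
      · obtain ⟨e, heX, he2⟩ := hex
        set B' := B.filter (fun b => b + (e - b₀) ∈ A) with hB'
        set A' := A ∪ (B.image (fun b => b + (e - b₀))) with hA'
        obtain ⟨heA, b₁, hb₁, hb₁'⟩ := Finset.mem_filter.1 heX
        have hBlt : B'.card < B.card := by
          apply Finset.card_lt_card
          refine ⟨Finset.filter_subset _ _, fun hsub => ?_⟩
          have := (Finset.mem_filter.1 (hsub hb₁)).2
          apply hb₁'
          rwa [show e + (b₁ - b₀) = b₁ + (e - b₀) by abel]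
        have hsub : A' + B' ⊆ A + B := by
          intro x hx
          obtain ⟨a, ha, b, hb, rfl⟩ := Finset.mem_add.1 hx
          obtain ⟨hbB, hbA⟩ := Finset.mem_filter.1 hb
          rcases Finset.mem_union.1 ha with ha | ha
          · exact Finset.add_mem_add ha hbB
          · obtain ⟨b', hb', rfl⟩ := Finset.mem_image.1 ha
            rw [show b' + (e - b₀) + b = (b + (e - b₀)) + b' by abel]
            exact Finset.add_mem_add hbA hb'
        have hcard : A'.card + B'.card = A.card + B.card := by
          have h1 : (A ∩ B.image (fun b => b + (e - b₀))).card = B'.card := by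
            have h2 : A ∩ B.image (fun b => b + (e - b₀)) = B'.image (fun b => b + (e - b₀)) := by
              ext x
              simp only [Finset.mem_inter, Finset.mem_image, hB', Finset.mem_filter]
              constructor
              · rintro ⟨hx, b, hb, rfl⟩
                exact ⟨b, ⟨hb, hx⟩, rfl⟩
              · rintro ⟨b, ⟨hb, hx⟩, rfl⟩
                exact ⟨hx, b, hb, rfl⟩
            rw [h2, Finset.card_image_of_injective _ (add_left_injective _)]
          have h3 := Finset.card_union_add_card_inter A (B.image (fun b => b + (e - b₀)))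
          rw [h1, Finset.card_image_of_injective _ (add_left_injective _)] at h3
          exact h3
        have hA'2 : 2 ≤ A'.card := le_trans hA (Finset.card_le_card Finset.subset_union_left)
        have hle := Finset.card_le_card hsub
        have hge := h.le (A := A') (B := B') (Finset.card_pos.1 (by omega))
          (Finset.card_pos.1 (by omega)) (lt_of_le_of_lt hle hlt)
        have heq : A' + B' = A + B := Finset.eq_of_subset_of_card_le hsub (by omega)
        obtain ⟨y, hy, hy2⟩ := ih B'.card (by omega) A' B' rfl hA'2 he2 (by rw [heq]; omega)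
          (by rw [heq]; exact hlt)
        rw [heq] at hy2
        exact ⟨y, hy, hy2⟩
      · exfalso
        push Not at hex
        -- at most one exceptional element
        have hX1 : X.card ≤ 1 := by
          by_contra hX2
          rw [not_le] at hX2
          have hXne : X.Nonempty := Finset.card_pos.1 (by omega)
          have hEne : (B.erase b₀).Nonempty := Finset.card_pos.1 (by
            rw [Finset.card_erase_of_mem hb₀]; omega)
          set P₀ := (A + B).image (fun x => x - b₀) with hP₀
          have hAP : A ⊆ P₀ := by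
            intro a ha
            exact Finset.mem_image.2 ⟨a + b₀, Finset.add_mem_add ha hb₀, by abel⟩
          have hsub : (X + B.erase b₀).image (fun x => x - b₀) ⊆ P₀ \ A := by
            intro x hx
            obtain ⟨u, hu, rfl⟩ := Finset.mem_image.1 hx
            obtain ⟨e, he, b, hb, rfl⟩ := Finset.mem_add.1 hu
            obtain ⟨hbne, hbB⟩ := Finset.mem_erase.1 hb
            have heA := (Finset.mem_filter.1 he).1
            refine Finset.mem_sdiff.2 ⟨Finset.mem_image.2 ⟨e + b, Finset.add_mem_add heA hbB, rfl⟩,
              fun hmem => ?_⟩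
            have h2 := hex e he
            have h3 : b₀ ∈ B.filter (fun b => b + (e - b₀) ∈ A) :=
              Finset.mem_filter.2 ⟨hb₀, by rwa [show b₀ + (e - b₀) = e by abel]⟩
            have h4 : b ∈ B.filter (fun b => b + (e - b₀) ∈ A) :=
              Finset.mem_filter.2 ⟨hbB, by rwa [show b + (e - b₀) = e + b - b₀ by abel]⟩
            have h5 := Finset.one_lt_card.2 ⟨b, h4, b₀, h3, hbne⟩
            omega
          have h1 := Finset.card_le_card hsub
          rw [Finset.card_image_of_injective _ (sub_left_injective), Finset.card_sdiff_of_subset hAP,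
            hP₀, Finset.card_image_of_injective _ (sub_left_injective)] at h1
          have h2 := h.le hXne hEne (by omega)
          rw [Finset.card_erase_of_mem hb₀] at h2
          omega
        set A₀ := A \ X with hA₀
        have hA₀c : A.card ≤ A₀.card + 1 := by
          have h8 := Finset.le_card_sdiff X A
          rw [hA₀]
          omega
        have hsub : (A₀ + B).image (fun x => x - b₀) ⊆ A := by
          intro x hx
          obtain ⟨u, hu, rfl⟩ := Finset.mem_image.1 hx
          obtain ⟨a, ha, b, hb, rfl⟩ := Finset.mem_add.1 hu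
          obtain ⟨haA, haX⟩ := Finset.mem_sdiff.1 ha
          by_contra hn
          apply haX
          exact Finset.mem_filter.2 ⟨haA, b, hb, by rwa [show a + (b - b₀) = a + b - b₀ by abel]⟩
        have h1 := Finset.card_le_card hsub
        rw [Finset.card_image_of_injective _ (sub_left_injective)] at h1
        have h2 := h.le (A := A₀) (B := B) (Finset.card_pos.1 (by omega)) ⟨b₀, hb₀⟩
          (lt_of_le_of_lt h1 hAlt)
        omega
    · obtain ⟨b, b', hbb, rfl⟩ := Finset.card_eq_two.1 (le_antisymm hB2 hB)
      set y := b' - b with hy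
      have hy0 : y ≠ 0 := sub_ne_zero.2 hbb.symm
      refine ⟨y, hy0, ?_⟩
      set A₁ := A.image (fun a => a + b) with hA₁
      set A₂ := A.image (fun a => a + b') with hA₂
      set A₃ := A.image (fun a => a + (b' + y)) with hA₃
      have hP : A + {b, b'} = A₁ ∪ A₂ := by
        ext x
        simp only [Finset.mem_add, Finset.mem_insert, Finset.mem_singleton, Finset.mem_union, hA₁,
          hA₂, Finset.mem_image]
        constructor
        · rintro ⟨a, ha, c, rfl | rfl, rfl⟩
          · exact Or.inl ⟨a, ha, rfl⟩
          · exact Or.inr ⟨a, ha, rfl⟩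
        · rintro (⟨a, ha, rfl⟩ | ⟨a, ha, rfl⟩)
          · exact ⟨a, ha, b, Or.inl rfl, rfl⟩
          · exact ⟨a, ha, b', Or.inr rfl, rfl⟩
      have hP2 : A + {b, b'} + {0, y} ⊆ (A₁ ∪ A₂) ∪ (A₃ \ A₂) := by
        intro x hx
        obtain ⟨u, hu, c, hc, rfl⟩ := Finset.mem_add.1 hx
        rcases Finset.mem_insert.1 hc with rfl | hc
        · rw [hP] at hu
          rw [add_zero]
          exact Finset.mem_union_left _ hu
        · rw [Finset.mem_singleton.1 hc]
          obtain ⟨a, ha, c', hc', rfl⟩ := Finset.mem_add.1 hu
          rcases Finset.mem_insert.1 hc' with rfl | hc'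
          · apply Finset.mem_union_left
            apply Finset.mem_union_right
            exact Finset.mem_image.2 ⟨a, ha, by rw [hy]; abel⟩
          · rw [Finset.mem_singleton.1 hc']
            by_cases hmem : a + b' + y ∈ A₂
            · exact Finset.mem_union_left _ (Finset.mem_union_right _ hmem)
            · apply Finset.mem_union_right
              exact Finset.mem_sdiff.2 ⟨Finset.mem_image.2 ⟨a, ha, by abel⟩, hmem⟩
      have h21 : (A₂ \ A₁).card ≤ 1 := by
        have h1 : (A₁ ∪ A₂).card = A₁.card + (A₂ \ A₁).card := by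
          rw [← Finset.union_sdiff_self_eq_union, Finset.card_union_of_disjoint Finset.disjoint_sdiff]
        rw [hP] at hAB
        rw [Finset.card_pair hbb] at hAB
        rw [h1, hA₁, Finset.card_image_of_injective _ (add_left_injective _)] at hAB
        rw [hA₁] 
        omega
      have h32 : (A₃ \ A₂).card ≤ 1 := by
        have h1 : A₃ \ A₂ = (A₂ \ A₁).image (fun x => x + y) := by
          ext x
          simp only [Finset.mem_sdiff, Finset.mem_image, hA₁, hA₂, hA₃]
          constructor
          · rintro ⟨⟨a, ha, rfl⟩, hn⟩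
            refine ⟨a + b', ⟨⟨a, ha, rfl⟩, ?_⟩, by abel⟩
            rintro ⟨a', ha', h2⟩
            apply hn
            refine ⟨a', ha', ?_⟩
            calc a' + b' = (a' + b) + y := by rw [hy]; abel
              _ = (a + b') + y := by rw [h2]
              _ = a + (b' + y) := by abel
          · rintro ⟨z, ⟨⟨a, ha, rfl⟩, hn⟩, rfl⟩
            refine ⟨⟨a, ha, by abel⟩, ?_⟩
            rintro ⟨a', ha', h2⟩
            apply hn
            refine ⟨a', ha', ?_⟩
            have h3 : a' + b + y = a + b' + y := by
              rw [← h2, hy]; abel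
            exact add_right_cancel h3
        rw [h1, Finset.card_image_of_injective _ (add_left_injective _)]
        exact h21
      calc (A + {b, b'} + {0, y}).card ≤ ((A₁ ∪ A₂) ∪ (A₃ \ A₂)).card := Finset.card_le_card hP2
        _ ≤ (A₁ ∪ A₂).card + (A₃ \ A₂).card := Finset.card_union_le _ _
        _ ≤ (A + {b, b'}).card + 1 := by rw [hP]; omega

/-- Vosper's theorem in chain form. -/
theorem vosper {L : ℕ} (h : CD G L) {A B : Finset G} (hA : 2 ≤ A.card) (hB : 2 ≤ B.card)
    (hAB : (A + B).card + 1 ≤ A.card + B.card) (hlt : (A + B).card + 2 ≤ L) :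
    ∃ y : G, y ≠ 0 ∧ (A + {0, y}).card ≤ A.card + 1 ∧ (B + {0, y}).card ≤ B.card + 1 ∧
      (A + B + {0, y}).card ≤ (A + B).card + 1 := by
  obtain ⟨y, hy, hP⟩ := chain_sum h B.card A B rfl hA hB hAB (by omega)
  refine ⟨y, hy, ?_, ?_, hP⟩
  · have h1 : A + {0, y} + B = A + B + {0, y} := by
      rw [add_assoc, add_comm {0, y} B, ← add_assoc]
    have hne : (A + {0, y}).Nonempty :=
      (Finset.card_pos.1 (by omega : 0 < A.card)).add ⟨0, by simp⟩
    have h2 := h.le (A := A + {0, y}) (B := B) hne (Finset.card_pos.1 (by omega))
      (by rw [h1]; omega)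
    rw [h1] at h2
    omega
  · have h1 : A + (B + {0, y}) = A + B + {0, y} := (add_assoc _ _ _).symm
    have hne : (B + {0, y}).Nonempty :=
      (Finset.card_pos.1 (by omega : 0 < B.card)).add ⟨0, by simp⟩
    have h2 := h.le (A := A) (B := B + {0, y}) (Finset.card_pos.1 (by omega)) hne
      (by rw [h1]; omega)
    rw [h1] at h2
    omega

/-- `φ(k)`: the number of `x ∈ X` with `k - x ∈ T`. -/
def phi (X T : Finset G) (k : G) : ℕ := (X.filter (fun x => k - x ∈ T)).card

theorem phi_comm (X T : Finset G) (k : G) : phi X T k = phi T X k := by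
  unfold phi
  refine Finset.card_bij (fun x _ => k - x) ?_ ?_ ?_
  · intro x hx
    obtain ⟨h1, h2⟩ := Finset.mem_filter.1 hx
    exact Finset.mem_filter.2 ⟨h2, by rwa [sub_sub_cancel]⟩
  · intro x _ x' _ h
    exact sub_right_injective h
  · intro t ht
    obtain ⟨h1, h2⟩ := Finset.mem_filter.1 ht
    exact ⟨k - t, Finset.mem_filter.2 ⟨h2, by rwa [sub_sub_cancel]⟩, by abel⟩

theorem mem_add_of_phi {X T : Finset G} {k : G} (h : 0 < phi X T k) : k ∈ X + T := by
  obtain ⟨x, hx⟩ := Finset.card_pos.1 h
  obtain ⟨h1, h2⟩ := Finset.mem_filter.1 hx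
  exact Finset.mem_add.2 ⟨x, h1, k - x, h2, by abel⟩

theorem phi_pos_iff {X T : Finset G} {k : G} : 0 < phi X T k ↔ k ∈ X + T := by
  refine ⟨mem_add_of_phi, fun h => ?_⟩
  obtain ⟨x, hx, t, ht, rfl⟩ := Finset.mem_add.1 h
  exact Finset.card_pos.2 ⟨x, Finset.mem_filter.2 ⟨hx, by rwa [add_sub_cancel_left]⟩⟩

theorem phi_step {X T : Finset G} {y : G} (h : (X + {0, y}).card ≤ X.card + 1) (k : G) :
    phi X T k ≤ phi X T (k + y) + 1 := by
  -- `X \ (X - y)` has at most one element
  set X' := X.image (fun x => x - y) with hX'
  have h1 : (X \ X').card ≤ 1 := by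
    have h2 : X' ∪ X = (X + {0, y}).image (fun x => x - y) := by
      ext x
      simp only [hX', Finset.mem_union, Finset.mem_image, Finset.mem_add, Finset.mem_insert,
        Finset.mem_singleton]
      constructor
      · rintro (⟨a, ha, rfl⟩ | hx)
        · exact ⟨a, ⟨a, ha, 0, Or.inl rfl, add_zero a⟩, rfl⟩
        · exact ⟨x + y, ⟨x, hx, y, Or.inr rfl, rfl⟩, by abel⟩
      · rintro ⟨z, ⟨a, ha, c, rfl | rfl, rfl⟩, rfl⟩
        · exact Or.inl ⟨a, ha, by abel⟩
        · right
          rwa [add_sub_cancel_right]
    have h3 : (X' ∪ X).card = X'.card + (X \ X').card := by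
      rw [← Finset.union_sdiff_self_eq_union, Finset.card_union_of_disjoint Finset.disjoint_sdiff]
    rw [h2, Finset.card_image_of_injective _ sub_left_injective, hX',
      Finset.card_image_of_injective _ sub_left_injective] at h3
    rw [hX']
    omega
  have h4 : phi X T k ≤ (X'.filter (fun x => k - x ∈ T)).card +
      ((X \ X').filter (fun x => k - x ∈ T)).card := by
    unfold phi
    calc (X.filter (fun x => k - x ∈ T)).card
        ≤ ((X' ∪ (X \ X')).filter (fun x => k - x ∈ T)).card := by
          apply Finset.card_le_card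
          apply Finset.filter_subset_filter
          rw [Finset.union_sdiff_self_eq_union]
          exact Finset.subset_union_right
      _ ≤ _ := by
          rw [Finset.filter_union]
          exact Finset.card_union_le _ _
  have h5 : (X'.filter (fun x => k - x ∈ T)).card = phi X T (k + y) := by
    unfold phi
    rw [hX', Finset.filter_image, Finset.card_image_of_injective _ sub_left_injective]
    congr 1
    ext x
    simp only [Finset.mem_filter]
    rw [show k - (x - y) = k + y - x by abel]
  have h6 : ((X \ X').filter (fun x => k - x ∈ T)).card ≤ 1 :=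
    le_trans (Finset.card_filter_le _ _) h1
  omega

/-- The parity trick. -/
theorem parity_trick {L : ℕ} (h : CD G L) {X T : Finset G} {r : ℕ} (hr : 4 ≤ r)
    (hφ : ∀ k, phi X T k = 0 ∨ phi X T k = r ∨ Odd (phi X T k)) {c : G} (hc : phi X T c = r)
    (hlt : (X + T).card < L) {y : G} (hy : y ≠ 0) :
    X.card + 2 ≤ (X + {0, y}).card ∧ T.card + 2 ≤ (T + {0, y}).card := by
  have key : (∀ k, phi X T k ≤ phi X T (k + y) + 1) → False := by
    intro hstep
    set S := (X + T).filter (fun k => 3 ≤ phi X T k) with hS
    have hcS : c ∈ S := Finset.mem_filter.2 ⟨mem_add_of_phi (by omega), by omega⟩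
    have hinv : ∀ k ∈ S, k + y ∈ S := by
      intro k hk
      obtain ⟨_, h3⟩ := Finset.mem_filter.1 hk
      have h4 := hstep k
      have h5 : 3 ≤ phi X T (k + y) := by
        rcases hφ (k + y) with h6 | h6 | h6
        · omega
        · omega
        · obtain ⟨j, hj⟩ := h6
          omega
      exact Finset.mem_filter.2 ⟨mem_add_of_phi (by omega), h5⟩
    have h6 := h.invariant ⟨c, hcS⟩ hy hinv
    have h7 : S.card ≤ (X + T).card := Finset.card_le_card (Finset.filter_subset _ _)
    omega
  constructor
  · by_contra hn
    exact key (phi_step (by omega))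
  · by_contra hn
    apply key
    intro k
    rw [phi_comm X T, phi_comm X T]
    exact phi_step (by omega) k

end Pool.Agent.Helper21.KZ
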